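import Pool.Agent.H7.IA.Stmts

/-!
# Polynomial estimates for general `t` (NTS)
-/

set_option autoImplicit false

open Finset

namespace Pool.IA7

open Pool.Agent.H23.KT Pool.Agent.H46.KW Pool.KQ Pool.GT7 Pool.GU7 Pool.HZ7

/-- The error constants. -/
noncomputable def nts_D (K : ℝ) : ℕ → ℝ
  | 0 => 0
  | m + 1 => m * K ^ 2 + (1 + K) * nts_D K m

theorem nts_D_nonneg {K : ℝ} (hK : 0 ≤ K) (m : ℕ) : 0 ≤ nts_D K m := by
  induction m with
  | zero => exact le_rfl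
  | succ m ih =>
    show 0 ≤ (m : ℝ) * K ^ 2 + (1 + K) * nts_D K m
    positivity

theorem nts_prod {ι : Type} [DecidableEq ι] {K a : ℝ} (hK : 0 ≤ K) (ha : 1 ≤ a) (x : ι → ℝ)
    (hx : ∀ i, |x i| ≤ K) (I : Finset ι) :
    |a ^ 2 * ∏ i ∈ I, (a + x i) - a ^ (I.card + 2) - a ^ (I.card + 1) * ∑ i ∈ I, x i| ≤
      nts_D K I.card * a ^ I.card := by
  have ha0 : 0 ≤ a := le_trans zero_le_one ha
  induction I using Finset.induction_on with
  | empty => simp [nts_D]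
  | @insert i I hi ih =>
    rw [prod_insert hi, sum_insert hi, card_insert_of_notMem hi]
    set P := ∏ j ∈ I, (a + x j)
    set S := ∑ j ∈ I, x j with hSdef
    set m := I.card with hm
    have hS : |S| ≤ m * K := by
      refine (abs_sum_le_sum_abs _ _).trans ?_
      refine (sum_le_sum fun j _ => hx j).trans ?_
      rw [sum_const, nsmul_eq_mul]
    set e := a ^ 2 * P - a ^ (m + 2) - a ^ (m + 1) * S with he
    have e1 : a ^ 2 * ((a + x i) * P) - a ^ (m + 1 + 2) - a ^ (m + 1 + 1) * (x i + S) =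
        a ^ (m + 1) * (x i * S) + (a + x i) * e := by
      rw [he]; ring
    rw [e1]
    have h1 : |a ^ (m + 1) * (x i * S)| ≤ a ^ (m + 1) * (K * (m * K)) := by
      rw [abs_mul, abs_of_nonneg (pow_nonneg ha0 (m + 1)), abs_mul]
      exact mul_le_mul_of_nonneg_left (mul_le_mul (hx i) hS (abs_nonneg _) hK) (pow_nonneg ha0 _)
    have h2 : |(a + x i) * e| ≤ (a * (1 + K)) * (nts_D K m * a ^ m) := by
      rw [abs_mul]
      refine mul_le_mul ?_ ih (abs_nonneg _) (by positivity)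
      have h3 := hx i
      rw [abs_le] at h3 ⊢
      constructor <;> nlinarith
    refine (abs_add_le _ _).trans ((add_le_add h1 h2).trans (le_of_eq ?_))
    show _ = ((m : ℝ) * K ^ 2 + (1 + K) * nts_D K m) * a ^ (m + 1)
    ring

theorem nts_count (B u : ℕ) (x : Fin (B + 1) → ℝ) :
    ∑ I ∈ (univ : Finset (Fin (B + 1))).powersetCard (u + 1), ∑ i ∈ I, x i =
      (B.choose u : ℝ) * ∑ i, x i := by
  classical
  have h1 : ∀ I : Finset (Fin (B + 1)), ∑ i ∈ I, x i = ∑ i, if i ∈ I then x i else 0 := by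
    intro I
    rw [sum_ite_mem, univ_inter]
  rw [sum_congr rfl (fun I _ => h1 I), sum_comm, mul_sum]
  refine sum_congr rfl fun i _ => ?_
  rw [← sum_filter, sum_const, nsmul_eq_mul]
  congr 1
  have h2 : ((univ : Finset (Fin (B + 1))).powersetCard (u + 1)).filter (fun I => ¬ i ∈ I) =
      (univ.erase i).powersetCard (u + 1) := by
    ext I
    simp only [mem_filter, mem_powersetCard]
    constructor
    · rintro ⟨⟨_, h⟩, hi⟩
      exact ⟨fun j hj => mem_erase.2 ⟨fun h => hi (h ▸ hj), mem_univ _⟩, h⟩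
    · rintro ⟨h, hc⟩
      exact ⟨⟨subset_univ _, hc⟩, fun hi => (mem_erase.1 (h hi)).1 rfl⟩
  have h3 := card_filter_add_card_filter_not
    (s := (univ : Finset (Fin (B + 1))).powersetCard (u + 1)) (fun I => i ∈ I)
  rw [h2, card_powersetCard, card_powersetCard, card_erase_of_mem (mem_univ i), card_univ,
    Fintype.card_fin, Nat.add_sub_cancel, Nat.choose_succ_succ' B u] at h3
  have h4 : (((univ : Finset (Fin (B + 1))).powersetCard (u + 1)).filter (fun I => i ∈ I)).card =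
      B.choose u := by omega
  exact_mod_cast h4

theorem nts_es (h : ESTStmt) {K a : ℝ} (hK : 0 ≤ K) (ha : 1 ≤ a) (B u : ℕ)
    (n : Fin (B + 1) → ℕ) (x : Fin (B + 1) → ℝ) (hn : ∀ i, (n i : ℝ) = a + x i)
    (hx : ∀ i, |x i| ≤ K) :
    |a ^ 2 * (es n (u + 1) : ℝ) - (B + 1).choose (u + 1) * a ^ (u + 1 + 2) -
      a ^ (u + 1 + 1) * (B.choose u * ∑ i, x i)| ≤
      (B + 1).choose (u + 1) * (nts_D K (u + 1) * a ^ (u + 1)) := by
  classical
  rw [h.1 n (u + 1)]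
  push_cast
  simp only [hn]
  have e1 : a ^ 2 * ∑ I ∈ (univ : Finset (Fin (B + 1))).powersetCard (u + 1), ∏ i ∈ I, (a + x i) -
      (B + 1).choose (u + 1) * a ^ (u + 1 + 2) - a ^ (u + 1 + 1) * (B.choose u * ∑ i, x i) =
      ∑ I ∈ (univ : Finset (Fin (B + 1))).powersetCard (u + 1),
        (a ^ 2 * ∏ i ∈ I, (a + x i) - a ^ (u + 1 + 2) - a ^ (u + 1 + 1) * ∑ i ∈ I, x i) := by
    rw [sum_sub_distrib, sum_sub_distrib, ← mul_sum, ← mul_sum, nts_count, sum_const,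
      card_powersetCard, card_univ, Fintype.card_fin, nsmul_eq_mul]
  rw [e1]
  refine (abs_sum_le_sum_abs _ _).trans ?_
  refine (sum_le_sum (g := fun _ => nts_D K (u + 1) * a ^ (u + 1)) fun I hI => ?_).trans
    (le_of_eq ?_)
  · have hc := (mem_powersetCard.1 hI).2
    have h5 := nts_prod hK ha x hx I
    rw [hc] at h5
    exact h5
  · rw [sum_const, card_powersetCard, card_univ, Fintype.card_fin, nsmul_eq_mul]

theorem nts_es' (h : ESTStmt) {K a : ℝ} (hK : 0 ≤ K) (ha : 1 ≤ a) (p w : ℕ)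
    (n : Fin (p + 4) → ℕ) (x : Fin (p + 4) → ℝ) (hn : ∀ i, (n i : ℝ) = a + x i)
    (hx : ∀ i, |x i| ≤ K) (S : ℝ) (hS : ∑ i, x i = S) :
    |(es n (w + 3) : ℝ) - (((p + 4).choose (w + 3) : ℝ) * a ^ 2 * a ^ (w + 1) +
      ((p + 3).choose (w + 2) : ℝ) * S * a * a ^ (w + 1))| ≤
      ((p + 4).choose (w + 3) : ℝ) * nts_D K (w + 3) * a ^ (w + 1) := by
  have h1 := nts_es h hK ha (p + 3) (w + 2) n x hn hx
  rw [hS] at h1
  have ha2 : 0 < a ^ 2 := by positivity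
  have e1 : a ^ 2 * (es n (w + 2 + 1) : ℝ) -
      (p + 3 + 1).choose (w + 2 + 1) * a ^ (w + 2 + 1 + 2) -
      a ^ (w + 2 + 1 + 1) * ((p + 3).choose (w + 2) * S) =
      a ^ 2 * ((es n (w + 3) : ℝ) - (((p + 4).choose (w + 3) : ℝ) * a ^ 2 * a ^ (w + 1) +
      ((p + 3).choose (w + 2) : ℝ) * S * a * a ^ (w + 1))) := by ring
  rw [e1, abs_mul, abs_of_pos ha2] at h1
  have e2 : ((p + 3 + 1).choose (w + 2 + 1) : ℝ) * (nts_D K (w + 2 + 1) * a ^ (w + 2 + 1)) =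
      a ^ 2 * (((p + 4).choose (w + 3) : ℝ) * nts_D K (w + 3) * a ^ (w + 1)) := by ring
  rw [e2] at h1
  exact le_of_mul_le_mul_left h1 ha2

theorem nts_ind (k : ℕ) : ∀ m, k ≤ m → ∑ i ∈ range m, (if i < k then 1 else 0) = k := by
  intro m hm
  rw [sum_boole]
  have : (range m).filter (fun i => i < k) = range k := by
    ext i; simp only [mem_filter, mem_range]; omega
  rw [this, card_range]
  rfl

theorem nts_tt (h : ESTStmt) {K : ℝ} (hK : 1 ≤ K) (p w r a : ℕ) (ha : 1 ≤ a) (hr : r ≤ p) :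
    |(TT (p + 4) (w + 3) a (r + 1) : ℝ) - (((p + 4).choose (w + 3) : ℝ) * (a : ℝ) ^ 2 *
      (a : ℝ) ^ (w + 1) + ((p + 3).choose (w + 2) : ℝ) * ((r : ℝ) + 1) * a * (a : ℝ) ^ (w + 1))| ≤
      ((p + 4).choose (w + 3) : ℝ) * nts_D K (w + 3) * (a : ℝ) ^ (w + 1) := by
  set n : Fin (p + 4) → ℕ := fun i => a + if (i : ℕ) < r + 1 then 1 else 0 with hn
  have hs : ∑ i : Fin (p + 4), (if (i : ℕ) < r + 1 then 1 else 0) = r + 1 := by
    rw [Fin.sum_univ_eq_sum_range (fun i => if i < r + 1 then 1 else 0) (p + 4)]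
    exact nts_ind (r + 1) (p + 4) (by omega)
  have h1 := (h.2.1 n (w + 3) a (r + 1) (fun i => by
    simp only [hn]; split_ifs <;> simp) (by
    simp only [hn]
    rw [sum_add_distrib, hs, sum_const, card_univ, Fintype.card_fin, smul_eq_mul])).1
  rw [← h1]
  refine nts_es' h (le_trans zero_le_one hK) (by exact_mod_cast ha) p w n
    (fun i => if (i : ℕ) < r + 1 then 1 else 0) (fun i => ?_) (fun i => ?_) _ ?_
  · simp only [hn]; push_cast; rfl
  · split_ifs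
    · simpa using hK
    · simpa using le_trans zero_le_one hK
  · exact_mod_cast hs

theorem nts_pow {a : ℝ} (ha : 1 ≤ a) (m : ℕ) : a * (a + 1) ^ m ≤ a ^ (m + 1) + 3 ^ m * a ^ m := by
  induction m with
  | zero => simp
  | succ m ih =>
    have ha0 : 0 ≤ a := le_trans zero_le_one ha
    have h1 : a * (a + 1) ^ (m + 1) = (a + 1) * (a * (a + 1) ^ m) := by ring
    rw [h1]
    refine (mul_le_mul_of_nonneg_left ih (by positivity)).trans ?_
    have h2 : (1 : ℝ) ≤ 3 ^ m := one_le_pow₀ (by norm_num)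
    have h3 : a ^ m ≤ a ^ (m + 1) := pow_le_pow_right₀ ha (by omega)
    have h4 : 0 ≤ a ^ m := by positivity
    have h5 : (3 : ℝ) ^ m * a ^ m ≤ 3 ^ m * a ^ (m + 1) :=
      mul_le_mul_of_nonneg_left h3 (by positivity)
    have h6 : a ^ (m + 1) ≤ 3 ^ m * a ^ (m + 1) := by
      have : 0 ≤ a ^ (m + 1) := by positivity
      nlinarith
    calc (a + 1) * (a ^ (m + 1) + 3 ^ m * a ^ m) =
        a ^ (m + 1 + 1) + (a ^ (m + 1) + 3 ^ m * a ^ (m + 1) + 3 ^ m * a ^ m) := by ring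
      _ ≤ a ^ (m + 1 + 1) + 3 ^ (m + 1) * a ^ (m + 1) := by
        have : (3 : ℝ) ^ (m + 1) * a ^ (m + 1) = 3 * (3 ^ m * a ^ (m + 1)) := by ring
        rw [this]
        linarith

theorem nts_eY {X A B c P a s r p q E F K₁ : ℝ} (hc : 0 ≤ c) (hP : 0 < P) (hK : 0 < K₁)
    (h1 : |X - (A * a ^ 2 * P + B * (s + r) * a * P)| ≤ E * P)
    (h3 : |q - a * ((p + 3) * s - r)| ≤ F) :
    |X - 1 / 2 * c * P * q + K₁ * P -
      (A * a ^ 2 * P + (B * (s + r) - 1 / 2 * c * ((p + 3) * s - r)) * a * P)| ≤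
      (E + 1 / 2 * c * F + K₁) * P := by
  have hcP : 0 ≤ 1 / 2 * c * P := by positivity
  have hv : |1 / 2 * c * P * (q - a * ((p + 3) * s - r))| ≤ 1 / 2 * c * P * F := by
    rw [abs_mul, abs_of_nonneg hcP]
    exact mul_le_mul_of_nonneg_left h3 hcP
  have h10 : 0 < K₁ * P := mul_pos hK hP
  rw [abs_le] at h1 hv ⊢
  obtain ⟨a1, a2⟩ := h1
  obtain ⟨b1, b2⟩ := hv
  constructor <;> linarith

theorem nts_eK {T A B c P a r p g E G : ℝ} (hc : 0 ≤ c) (hP : 0 < P) (ha : 1 ≤ a)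
    (hr : 0 ≤ r) (hrp : r ≤ p)
    (h2 : |T - (A * a ^ 2 * P + B * (r + 1) * a * P)| ≤ E * P)
    (h4 : a * (g - P) ≤ G * P) (h5 : 0 ≤ g - P) :
    |T - ((p + 3 - r) * a + 1) / 2 * (c * g) -
      (A * a ^ 2 * P + (B * (r + 1) - 1 / 2 * c * (p + 3 - r)) * a * P)| ≤
      (E + 1 / 2 * c + 1 / 2 * c * ((p + 4) * G)) * P := by
  have hp : 0 ≤ p := le_trans hr hrp
  have h7 : 0 ≤ ((p + 3 - r) * a + 1) * (g - P) := by
    refine mul_nonneg ?_ h5
    have : 0 ≤ (p + 3 - r) * a := mul_nonneg (by linarith) (by linarith)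
    linarith
  have h8 : ((p + 3 - r) * a + 1) * (g - P) ≤ (p + 4) * (G * P) := by
    have h9 : ((p + 3 - r) * a + 1) * (g - P) ≤ ((p + 4) * a) * (g - P) := by
      refine mul_le_mul_of_nonneg_right ?_ h5
      have : 0 ≤ r * a := mul_nonneg hr (by linarith)
      linarith
    have h10 : (p + 4) * (a * (g - P)) ≤ (p + 4) * (G * P) :=
      mul_le_mul_of_nonneg_left h4 (by linarith)
    linarith
  have hc2 : (0 : ℝ) ≤ 1 / 2 * c := by positivity
  have h9 := mul_le_mul_of_nonneg_left h8 hc2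
  have h10 := mul_nonneg hc2 h7
  have hcP : 0 ≤ 1 / 2 * c * P := by positivity
  rw [abs_le] at h2 ⊢
  obtain ⟨a1, a2⟩ := h2
  constructor <;> linarith

theorem nts_fin {A a P p r s K y z eY eK EY EK Zb Yb : ℝ} (ha : 1 ≤ a) (hP : 0 < P)
    (hp : 0 ≤ p) (hr : 0 ≤ r) (hs : 1 ≤ s) (hsK : s ≤ K) (hEY : 0 ≤ EY) (hEK : 0 ≤ EK)
    (hZb : 0 ≤ Zb) (hYb : 0 ≤ Yb) (hy : |y| ≤ Yb) (hz : |z| ≤ Zb)
    (hYa : |eY| ≤ EY * P) (hKa : |eK| ≤ EK * P)
    (hcoef : 1 ≤ A * (s - 1) + (p + 4) * (z - y))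
    (hM : Zb * (r + K) + Yb * (r + 1) + (EY + EK) * (p + 4 + r + K + 1) ≤ a) :
    (A * a ^ 2 * P + y * a * P + eY) * ((p + 3) * a + r + a + 1) ≤
      (A * a ^ 2 * P + z * a * P + eK) * ((p + 3) * a + r + a + s) := by
  have e1 : (A * a ^ 2 * P + z * a * P + eK) * ((p + 3) * a + r + a + s) -
      (A * a ^ 2 * P + y * a * P + eY) * ((p + 3) * a + r + a + 1) =
      a ^ 2 * P * (A * (s - 1) + (p + 4) * (z - y)) +
      a * P * (z * (r + s) - y * (r + 1)) +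
      (eK * ((p + 4) * a + r + s) - eY * ((p + 4) * a + r + 1)) := by ring
  have hmid : -(Zb * (r + K) + Yb * (r + 1)) ≤ z * (r + s) - y * (r + 1) := by
    have h6 : |z * (r + s)| ≤ Zb * (r + K) := by
      rw [abs_mul, abs_of_nonneg (by linarith : 0 ≤ r + s)]
      exact mul_le_mul hz (by linarith) (by linarith) hZb
    have h7 : |y * (r + 1)| ≤ Yb * (r + 1) := by
      rw [abs_mul, abs_of_nonneg (by linarith : 0 ≤ r + 1)]
      exact mul_le_mul_of_nonneg_right hy (by linarith)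
    have h8 := abs_le.1 h6
    have h9 := abs_le.1 h7
    linarith [h8.1, h9.2]
  have ha0 : 0 ≤ a := by linarith
  have hpa : 0 ≤ p * a := mul_nonneg hp ha0
  have hra : r ≤ r * a := le_mul_of_one_le_right hr ha
  have hKa' : K ≤ K * a := le_mul_of_one_le_right (by linarith) ha
  have hKa0 : 0 ≤ K * a := mul_nonneg (by linarith) ha0
  have hW : 0 ≤ (p + 4 + r + K + 1) * a := mul_nonneg (by linarith) ha0
  have hend : -((EY + EK) * (p + 4 + r + K + 1) * (a * P)) ≤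
      eK * ((p + 4) * a + r + s) - eY * ((p + 4) * a + r + 1) := by
    have h8 : (p + 4) * a + r + s ≤ (p + 4 + r + K + 1) * a := by linarith
    have h9 : (p + 4) * a + r + 1 ≤ (p + 4 + r + K + 1) * a := by linarith
    have h6 : 0 ≤ (p + 4) * a + r + s := by linarith
    have h7 : 0 ≤ (p + 4) * a + r + 1 := by linarith
    have h10 : |eK * ((p + 4) * a + r + s)| ≤ EK * P * ((p + 4 + r + K + 1) * a) := by
      rw [abs_mul, abs_of_nonneg h6]
      exact mul_le_mul hKa h8 h6 (by positivity)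
    have h11 : |eY * ((p + 4) * a + r + 1)| ≤ EY * P * ((p + 4 + r + K + 1) * a) := by
      rw [abs_mul, abs_of_nonneg h7]
      exact mul_le_mul hYa h9 h7 (by positivity)
    have h12 := (abs_le.1 h10).1
    have h13 := (abs_le.1 h11).2
    have e4 : (EY + EK) * (p + 4 + r + K + 1) * (a * P) =
        EY * P * ((p + 4 + r + K + 1) * a) + EK * P * ((p + 4 + r + K + 1) * a) := by ring
    rw [e4]
    linarith
  have haP : 0 ≤ a * P := by positivity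
  have h14 := mul_le_mul_of_nonneg_left hmid haP
  have h15 := mul_le_mul_of_nonneg_left hcoef (by positivity : 0 ≤ a ^ 2 * P)
  have h16 := mul_le_mul_of_nonneg_left hM haP
  rw [← sub_nonneg, e1]
  generalize a ^ 2 * P * (A * (s - 1) + (p + 4) * (z - y)) = t1 at h15 ⊢
  generalize a * P * (z * (r + s) - y * (r + 1)) = t2 at h14 ⊢
  generalize eK * ((p + 4) * a + r + s) - eY * ((p + 4) * a + r + 1) = t3 at hend ⊢
  linarith

theorem nts_coef {A B c p w s r : ℝ} (hA : 1 ≤ A) (hw : 0 ≤ w) (hs : 2 ≤ s)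
    (hAB : (w + 3) * A = (p + 4) * B) (hBc : (w + 2) * B = (p + 3) * c) :
    1 ≤ A * (s - 1) + (p + 4) * ((B * (r + 1) - 1 / 2 * c * (p + 3 - r)) -
      (B * (s + r) - 1 / 2 * c * ((p + 3) * s - r))) := by
  have e2 : A * (s - 1) + (p + 4) * ((B * (r + 1) - 1 / 2 * c * (p + 3 - r)) -
      (B * (s + r) - 1 / 2 * c * ((p + 3) * s - r))) =
      (s - 1) * (A * ((w + 1) * (w + 2)) / 2) := by
    linear_combination ((s - 1) * (1 - (w + 2) / 2)) * hAB -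
      (p + 4) * (s - 1) / 2 * hBc
  rw [e2]
  have h5 : 2 ≤ (w + 1) * (w + 2) := by nlinarith
  have h6 : 1 ≤ A * ((w + 1) * (w + 2)) / 2 := by nlinarith
  nlinarith

theorem nts_z {B c p r : ℝ} (hB : 0 ≤ B) (hc : 0 ≤ c) (hr : 0 ≤ r) (hrp : r ≤ p) :
    |B * (r + 1) - 1 / 2 * c * (p + 3 - r)| ≤ B * (r + 1) + 1 / 2 * c * (p + 3) := by
  have h6 : 0 ≤ B * (r + 1) := by positivity
  have h7 : 0 ≤ 1 / 2 * c * (p + 3 - r) := mul_nonneg (by positivity) (by linarith)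
  have h8 : 0 ≤ 1 / 2 * c * r := by positivity
  rw [abs_le]
  constructor <;> linarith

theorem nts_y {B c p r s K : ℝ} (hB : 0 ≤ B) (hc : 0 ≤ c) (hp : 0 ≤ p) (hr : 0 ≤ r)
    (hs : 1 ≤ s) (hsK : s ≤ K) :
    |B * (s + r) - 1 / 2 * c * ((p + 3) * s - r)| ≤
      B * (K + r) + 1 / 2 * c * ((p + 3) * K) + 1 / 2 * c * r := by
  have h6 : 0 ≤ B * (s + r) := mul_nonneg hB (by linarith)
  have h6' : B * (s + r) ≤ B * (K + r) := mul_le_mul_of_nonneg_left (by linarith) hB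
  have h7 : 1 / 2 * c * ((p + 3) * s) ≤ 1 / 2 * c * ((p + 3) * K) :=
    mul_le_mul_of_nonneg_left (mul_le_mul_of_nonneg_left hsK (by linarith)) (by positivity)
  have h8 : 0 ≤ 1 / 2 * c * ((p + 3) * s) := mul_nonneg (by positivity) (by nlinarith)
  have h9 : 0 ≤ 1 / 2 * c * r := by positivity
  have e3 : B * (s + r) - 1 / 2 * c * ((p + 3) * s - r) =
      B * (s + r) - 1 / 2 * c * ((p + 3) * s) + 1 / 2 * c * r := by ring
  rw [e3, abs_le]
  constructor <;> linarith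

theorem nts_main (hE : ESTStmt) (p w r K a s : ℕ) (hwp : w ≤ p) (hrp : r ≤ p) (K₁ : ℝ)
    (hK₁ : 0 < K₁) (ha1 : 1 ≤ a) (hsK : s ≤ K) (n σ : Fin (p + 4) → ℕ)
    (hn : ∀ j, n j + σ j = a + s) (hσ : ∀ j, σ j ≤ K) (hsum : ∑ j, σ j + r = (p + 3) * s)
    (E : ℝ) (hEd : E = ((p + 4).choose (w + 3) : ℝ) * nts_D ((K : ℝ) + 1) (w + 3)) :
    |Yt p w a K₁ n σ - (((p + 4).choose (w + 3) : ℝ) * (a : ℝ) ^ 2 * (a : ℝ) ^ (w + 1) +
      (((p + 3).choose (w + 2) : ℝ) * ((s : ℝ) + r) -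
        1 / 2 * c1 p w * (((p : ℝ) + 3) * s - r)) * a * (a : ℝ) ^ (w + 1))| ≤
      (E + 1 / 2 * c1 p w * (((p : ℝ) + 4) * (((K : ℝ) + 1) * ((K : ℝ) + 1))) + K₁) *
        (a : ℝ) ^ (w + 1) ∧
    |kt p w r a - (((p + 4).choose (w + 3) : ℝ) * (a : ℝ) ^ 2 * (a : ℝ) ^ (w + 1) +
      (((p + 3).choose (w + 2) : ℝ) * ((r : ℝ) + 1) -
        1 / 2 * c1 p w * ((p : ℝ) + 3 - r)) * a * (a : ℝ) ^ (w + 1))| ≤
      (E + 1 / 2 * c1 p w + 1 / 2 * c1 p w * (((p : ℝ) + 4) * 3 ^ (w + 1))) *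
        (a : ℝ) ^ (w + 1) := by
  have hc0 : 0 ≤ c1 p w := Nat.cast_nonneg _
  have hK0 : (0 : ℝ) ≤ K := Nat.cast_nonneg _
  have hα : (1 : ℝ) ≤ a := by exact_mod_cast ha1
  have hα0 : (0 : ℝ) ≤ a := by linarith
  have hP0 : 0 < (a : ℝ) ^ (w + 1) := by positivity
  have hrR : (r : ℝ) ≤ p := by exact_mod_cast hrp
  have hsKR : (s : ℝ) ≤ K := by exact_mod_cast hsK
  have hs0 : (0 : ℝ) ≤ s := Nat.cast_nonneg _
  have hsumR : ∑ j, (σ j : ℝ) = ((p : ℝ) + 3) * s - r := by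
    have h : ((∑ j, σ j + r : ℕ) : ℝ) = (((p + 3) * s : ℕ) : ℝ) := by exact_mod_cast hsum
    push_cast at h
    linarith
  have hnR : ∀ j, (n j : ℝ) = a + ((s : ℝ) - σ j) := by
    intro j
    have h : ((n j + σ j : ℕ) : ℝ) = ((a + s : ℕ) : ℝ) := by exact_mod_cast hn j
    push_cast at h
    linarith
  have hσR : ∀ j, (σ j : ℝ) ≤ K := fun j => by exact_mod_cast hσ j
  have hσ0 : ∀ j, (0 : ℝ) ≤ σ j := fun j => Nat.cast_nonneg _
  have hx : ∀ j, |(s : ℝ) - σ j| ≤ (K : ℝ) + 1 := by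
    intro j
    have h1 := hσR j
    have h2 := hσ0 j
    rw [abs_le]
    constructor <;> linarith
  have hxs : ∑ j : Fin (p + 4), ((s : ℝ) - σ j) = s + r := by
    rw [sum_sub_distrib, hsumR, sum_const, card_univ, Fintype.card_fin, nsmul_eq_mul]
    push_cast
    ring
  have h1 := nts_es' hE (by linarith) hα p w n (fun j => (s : ℝ) - σ j) hnR hx _ hxs
  have h2 := nts_tt hE (by linarith : (1 : ℝ) ≤ (K : ℝ) + 1) p w r a ha1 hrp
  rw [← hEd] at h1 h2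
  have h3 : |∑ j, (n j : ℝ) * σ j - a * (((p : ℝ) + 3) * s - r)| ≤
      ((p : ℝ) + 4) * (((K : ℝ) + 1) * ((K : ℝ) + 1)) := by
    have e1 : ∑ j, (n j : ℝ) * σ j - a * (((p : ℝ) + 3) * s - r) =
        ∑ j, ((s : ℝ) - σ j) * σ j := by
      rw [← hsumR, mul_sum, ← sum_sub_distrib]
      refine sum_congr rfl fun j _ => ?_
      rw [hnR j]; ring
    rw [e1]
    refine (abs_sum_le_sum_abs _ _).trans ?_
    refine (sum_le_sum (g := fun _ => ((K : ℝ) + 1) * ((K : ℝ) + 1)) fun j _ => ?_).trans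
      (le_of_eq ?_)
    · rw [abs_mul]
      refine mul_le_mul (hx j) ?_ (abs_nonneg _) (by linarith)
      rw [abs_of_nonneg (hσ0 j)]
      have := hσR j
      linarith
    · rw [sum_const, card_univ, Fintype.card_fin, nsmul_eq_mul]
      push_cast
      ring
  have h4 : (a : ℝ) * (((a : ℝ) + 1) ^ (w + 1) - (a : ℝ) ^ (w + 1)) ≤
      3 ^ (w + 1) * (a : ℝ) ^ (w + 1) := by
    have h := nts_pow hα (w + 1)
    rw [pow_succ (a : ℝ) (w + 1)] at h
    linarith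
  have h5 : 0 ≤ ((a : ℝ) + 1) ^ (w + 1) - (a : ℝ) ^ (w + 1) := by
    have : (a : ℝ) ^ (w + 1) ≤ ((a : ℝ) + 1) ^ (w + 1) :=
      pow_le_pow_left₀ hα0 (by linarith) _
    linarith
  constructor
  · exact nts_eY hc0 hP0 hK₁ h1 h3
  · have hkt : kt p w r a = (TT (p + 4) (w + 3) a (r + 1) : ℝ) -
        (((p : ℝ) + 3 - r) * a + 1) / 2 * (c1 p w * ((a : ℝ) + 1) ^ (w + 1)) := by
      have e : ((p + 3 - r : ℕ) : ℝ) = (p : ℝ) + 3 - r := by
        rw [Nat.cast_sub (by omega)]; push_cast; ring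
      show _ - (((p + 3 - r : ℕ) : ℝ) * a + 1) / 2 * (c1 p w * ((a : ℝ) + 1) ^ (w + 1)) = _
      rw [e]
    rw [hkt]
    exact nts_eK hc0 hP0 hα (Nat.cast_nonneg _) hrR h2 h4 h5

theorem nts_thm (hE : ESTStmt) : NTSStmt := by
  intro p w r hP K K₁ hK₁
  obtain ⟨hw1, hwp, hrp, -⟩ := hP
  have hA1 : (1 : ℝ) ≤ ((p + 4).choose (w + 3) : ℝ) := by
    have : 0 < (p + 4).choose (w + 3) := Nat.choose_pos (by omega)
    exact_mod_cast this
  have hB0 : (0 : ℝ) ≤ ((p + 3).choose (w + 2) : ℝ) := Nat.cast_nonneg _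
  have hc0 : 0 ≤ c1 p w := Nat.cast_nonneg _
  have hAB : ((w : ℝ) + 3) * ((p + 4).choose (w + 3) : ℝ) =
      ((p : ℝ) + 4) * ((p + 3).choose (w + 2) : ℝ) := by
    have h := Nat.add_one_mul_choose_eq (p + 3) (w + 2)
    have h' : ((p + 3 + 1 : ℕ) : ℝ) * ((p + 3).choose (w + 2) : ℝ) =
        ((p + 3 + 1).choose (w + 2 + 1) : ℝ) * ((w + 2 + 1 : ℕ) : ℝ) := by exact_mod_cast h
    push_cast at h'
    linear_combination -h'
  have hBc : ((w : ℝ) + 2) * ((p + 3).choose (w + 2) : ℝ) = ((p : ℝ) + 3) * c1 p w := by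
    have h := Nat.add_one_mul_choose_eq (p + 2) (w + 1)
    have h' : ((p + 2 + 1 : ℕ) : ℝ) * ((p + 2).choose (w + 1) : ℝ) =
        ((p + 2 + 1).choose (w + 1 + 1) : ℝ) * ((w + 1 + 1 : ℕ) : ℝ) := by exact_mod_cast h
    push_cast at h'
    unfold c1
    linear_combination -h'
  have hK0 : (0 : ℝ) ≤ K := Nat.cast_nonneg _
  obtain ⟨E, hEd⟩ : ∃ E : ℝ, E = ((p + 4).choose (w + 3) : ℝ) * nts_D ((K : ℝ) + 1) (w + 3) :=
    ⟨_, rfl⟩
  have hE0 : 0 ≤ E := by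
    rw [hEd]
    exact mul_nonneg (by linarith) (nts_D_nonneg (by linarith) _)
  obtain ⟨EY, hEY⟩ : ∃ EY : ℝ, EY = E + 1 / 2 * c1 p w *
      (((p : ℝ) + 4) * (((K : ℝ) + 1) * ((K : ℝ) + 1))) + K₁ := ⟨_, rfl⟩
  obtain ⟨EK, hEK⟩ : ∃ EK : ℝ, EK = E + 1 / 2 * c1 p w + 1 / 2 * c1 p w *
      (((p : ℝ) + 4) * 3 ^ (w + 1)) := ⟨_, rfl⟩
  have hEY0 : 0 < EY := by rw [hEY]; positivity
  have hEK0 : 0 ≤ EK := by rw [hEK]; positivity
  obtain ⟨Zb, hZb⟩ : ∃ Zb : ℝ, Zb = ((p + 3).choose (w + 2) : ℝ) * ((r : ℝ) + 1) +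
      1 / 2 * c1 p w * ((p : ℝ) + 3) := ⟨_, rfl⟩
  obtain ⟨Yb, hYb⟩ : ∃ Yb : ℝ, Yb = ((p + 3).choose (w + 2) : ℝ) * ((K : ℝ) + r) +
      1 / 2 * c1 p w * (((p : ℝ) + 3) * K) + 1 / 2 * c1 p w * r := ⟨_, rfl⟩
  have hZb0 : 0 ≤ Zb := by rw [hZb]; positivity
  have hYb0 : 0 ≤ Yb := by rw [hYb]; positivity
  refine ⟨EY + EK, by positivity, max 1 ⌈Zb * ((r : ℝ) + K) + Yb * (r + 1) +
    (EY + EK) * ((p : ℝ) + 4 + r + K + 1)⌉₊, fun a ha s hs1 hsK n σ hn hσ hsum => ?_⟩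
  have ha1 : 1 ≤ a := le_trans (le_max_left _ _) ha
  have haM : Zb * ((r : ℝ) + K) + Yb * (r + 1) +
      (EY + EK) * ((p : ℝ) + 4 + r + K + 1) ≤ a :=
    (Nat.le_ceil _).trans (by exact_mod_cast le_trans (le_max_right _ _) ha)
  have hα : (1 : ℝ) ≤ a := by exact_mod_cast ha1
  have hP0 : 0 < (a : ℝ) ^ (w + 1) := by positivity
  have hrR : (r : ℝ) ≤ p := by exact_mod_cast hrp
  have hsR : (1 : ℝ) ≤ s := by exact_mod_cast hs1
  have hsKR : (s : ℝ) ≤ K := by exact_mod_cast hsK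
  obtain ⟨h1, h2⟩ := nts_main hE p w r K a s hwp hrp K₁ hK₁ ha1 hsK n σ hn hσ hsum E hEd
  rw [← hEY] at h1
  rw [← hEK] at h2
  constructor
  · intro hs
    have hs' : (s : ℝ) = 1 := by exact_mod_cast hs
    rw [hs'] at h1
    have h3 := (abs_le.1 h1).2
    have h4 := (abs_le.1 h2).1
    linarith
  · intro hs
    have hs2 : (2 : ℝ) ≤ s := by exact_mod_cast hs
    have hcoef := nts_coef (r := (r : ℝ)) hA1 (Nat.cast_nonneg w) hs2 hAB hBc
    have hzb := nts_z hB0 hc0 (Nat.cast_nonneg r) hrR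
    have hyb := nts_y (p := (p : ℝ)) hB0 hc0 (Nat.cast_nonneg p) (Nat.cast_nonneg r) hsR hsKR
    rw [← hZb] at hzb
    rw [← hYb] at hyb
    have h3 := nts_fin hα hP0 (Nat.cast_nonneg p) (Nat.cast_nonneg r) hsR hsKR hEY0.le hEK0 hZb0
      hYb0 hyb hzb h1 h2 hcoef haM
    push_cast
    refine le_trans (le_of_eq ?_) (h3.trans (le_of_eq ?_)) <;> ring

end Pool.IA7
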